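import Pool.Agent.Helper20.RG.St3
import Pool.Agent.Helper82.LM.M_HA

set_option autoImplicit false

open MeasureTheory Set Filter Topology
open scoped ENNReal RealInnerProductSpace

namespace Pool.Agent.Helper79.RG

open Pool.Agent.Helper20.RG
open Pool.Agent.Helper68.LM (Pl BB Bd Av HL ft fm DQ)
open Pool.Agent.Helper82.LM (tr tr_measurable tr_le_nat tr_le tr_mono tr_sup tr_BB)

/-- From bounded functions with bounded support to all measurable functions. -/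
theorem co2_gen (ν : Measure Pl) [IsFiniteMeasure ν] (p C : ℝ) (hp0 : 0 < p) (hC : 0 < C)
    (hkey : ∀ g : Pl → ℝ, BB g → (∀ x, 0 ≤ g x) →
      ∫⁻ x, (⨆ k : ℤ, ENNReal.ofReal (Av ν ((2 : ℝ) ^ k) g x)) ^ p ≤
        ENNReal.ofReal C * ∫⁻ x, ENNReal.ofReal (g x) ^ p) : MaxB ν p := by
  refine ⟨C, hC, ?_⟩
  intro f hf
  have hre : ∀ n x, ENNReal.ofReal ((tr f n x).toReal) = tr f n x := fun n x =>
    ENNReal.ofReal_toReal (ne_top_of_le_ne_top (ENNReal.natCast_ne_top n) (tr_le_nat f n x))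
  have hAv : ∀ (n : ℕ) (k : ℤ) (x : Pl),
      ENNReal.ofReal (Av ν ((2 : ℝ) ^ k) (fun x => (tr f n x).toReal) x) =
        ∫⁻ y, tr f n (x - (2 : ℝ) ^ k • y) ∂ν := by
    intro n k x
    rw [Av, ofReal_integral_eq_lintegral_ofReal]
    · exact lintegral_congr fun y => hre _ _
    · refine Integrable.of_bound (C := n) ?_ (ae_of_all _ fun y => ?_)
      · have h1 : Measurable (fun y : Pl => (tr f n (x - (2 : ℝ) ^ k • y)).toReal) :=
          ((tr_measurable f hf n).comp (by fun_prop)).ennreal_toReal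
        exact h1.aestronglyMeasurable
      · have h2 := ENNReal.toReal_mono (ENNReal.natCast_ne_top n)
          (tr_le_nat f n (x - (2 : ℝ) ^ k • y))
        rw [Real.norm_of_nonneg ENNReal.toReal_nonneg]
        simpa using h2
    · exact ae_of_all _ fun y => ENNReal.toReal_nonneg
  have hn : ∀ n : ℕ, ∫⁻ x, (⨆ k : ℤ, ∫⁻ y, tr f n (x - (2 : ℝ) ^ k • y) ∂ν) ^ p ≤
      ENNReal.ofReal C * ∫⁻ x, f x ^ p := by
    intro n
    have h1 := hkey (fun x => (tr f n x).toReal) (tr_BB f hf n)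
      (fun x => ENNReal.toReal_nonneg)
    simp only [hAv, hre] at h1
    refine h1.trans ?_
    gcongr with x
    exact tr_le f n x
  have hmeas : ∀ n : ℕ, Measurable
      (fun x => (⨆ k : ℤ, ∫⁻ y, tr f n (x - (2 : ℝ) ^ k • y) ∂ν) ^ p) := by
    intro n
    apply Measurable.pow_const
    apply Measurable.iSup
    intro k
    have h2 : Measurable (fun w : Pl × Pl => tr f n (w.1 - (2 : ℝ) ^ k • w.2)) :=
      (tr_measurable f hf n).comp (by fun_prop)
    exact h2.lintegral_prod_right'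
  have hmono : Monotone (fun n : ℕ => fun x =>
      (⨆ k : ℤ, ∫⁻ y, tr f n (x - (2 : ℝ) ^ k • y) ∂ν) ^ p) := by
    intro m n hmn x
    simp only
    apply ENNReal.rpow_le_rpow _ hp0.le
    refine iSup_mono fun k => lintegral_mono fun y => ?_
    exact tr_mono f _ hmn
  have hsup : ∀ x, (⨆ k : ℤ, ∫⁻ y, f (x - (2 : ℝ) ^ k • y) ∂ν) ^ p =
      ⨆ n : ℕ, (⨆ k : ℤ, ∫⁻ y, tr f n (x - (2 : ℝ) ^ k • y) ∂ν) ^ p := by
    intro x
    have h1 : ∀ k : ℤ, ∫⁻ y, f (x - (2 : ℝ) ^ k • y) ∂ν =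
        ⨆ n : ℕ, ∫⁻ y, tr f n (x - (2 : ℝ) ^ k • y) ∂ν := by
      intro k
      rw [← lintegral_iSup]
      · exact lintegral_congr fun y => (tr_sup f _).symm
      · intro n
        exact (tr_measurable f hf n).comp (by fun_prop)
      · intro m n hmn y
        exact tr_mono f _ hmn
    simp only [h1]
    rw [iSup_comm]
    exact (ENNReal.orderIsoRpow p hp0).map_iSup _
  calc ∫⁻ x, (⨆ k : ℤ, ∫⁻ y, f (x - (2 : ℝ) ^ k • y) ∂ν) ^ p
      = ∫⁻ x, ⨆ n : ℕ, (⨆ k : ℤ, ∫⁻ y, tr f n (x - (2 : ℝ) ^ k • y) ∂ν) ^ p :=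
        lintegral_congr hsup
    _ = ⨆ n : ℕ, ∫⁻ x, (⨆ k : ℤ, ∫⁻ y, tr f n (x - (2 : ℝ) ^ k • y) ∂ν) ^ p :=
        lintegral_iSup hmeas hmono
    _ ≤ _ := iSup_le hn

theorem hCO2 (_hPT : StPT) (hCOR : StCOR) : StCO2 := by
  intro φ τ A σ q c hG hGap hA hσ hσq hq
  obtain ⟨C, hC, hkey⟩ := hCOR φ τ A σ q c hG hGap hA hσ hσq hq
  haveI : IsFiniteMeasure (arc c φ) := by
    unfold arc
    infer_instance
  exact co2_gen (arc c φ) q C (by linarith) hC hkey

end Pool.Agent.Helper79.RG
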