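import Pool.Agent.Helper20.RG.St1

set_option autoImplicit false

open MeasureTheory Set Filter Topology
open scoped ENNReal RealInnerProductSpace

namespace Pool.Agent.Helper79.RG

open Pool.Agent.Helper20.RG
open Pool.Agent.Helper68.LM (Pl BB Bd Av HL ft fm DQ)

/-- the box factor -/
noncomputable def kap (m : ℕ) (ξ : Pl) : ℝ :=
  Real.sinc (2 * Real.pi * (2 : ℝ) ^ (-(m : ℤ)) * ξ 0) *
    Real.sinc (2 * Real.pi * (2 : ℝ) ^ (-(m : ℤ)) * ξ 1)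

theorem Zh_norm (s : ℝ) (c : Pl) (m m' : ℕ) (ℓ : ℝ) (ξ : Pl) :
    ‖Zh s c m m' ℓ ξ‖ = |Real.sinc (Real.pi * ℓ * ⟪E s, ξ⟫)| * |kap m ξ - kap m' ξ| := by
  have : Zh s c m m' ℓ ξ = Complex.exp (((-2 * Real.pi * ⟪c, ξ⟫ : ℝ) : ℂ) * Complex.I) *
      ((Real.sinc (Real.pi * ℓ * ⟪E s, ξ⟫) * (kap m ξ - kap m' ξ) : ℝ) : ℂ) := by
    unfold Zh Yh kap
    push_cast
    ring
  rw [this, norm_mul, Complex.norm_exp_ofReal_mul_I, one_mul, Complex.norm_real, Real.norm_eq_abs,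
    abs_mul]

theorem Zh_diff_norm (s : ℝ) (c : Pl) (m m' : ℕ) (ℓ ℓ' : ℝ) (ξ : Pl) :
    ‖Zh s c m m' ℓ ξ - Zh s c m m' ℓ' ξ‖ =
      |Real.sinc (Real.pi * ℓ * ⟪E s, ξ⟫) - Real.sinc (Real.pi * ℓ' * ⟪E s, ξ⟫)| *
        |kap m ξ - kap m' ξ| := by
  have : Zh s c m m' ℓ ξ - Zh s c m m' ℓ' ξ =
      Complex.exp (((-2 * Real.pi * ⟪c, ξ⟫ : ℝ) : ℂ) * Complex.I) *
      (((Real.sinc (Real.pi * ℓ * ⟪E s, ξ⟫) - Real.sinc (Real.pi * ℓ' * ⟪E s, ξ⟫)) *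
        (kap m ξ - kap m' ξ) : ℝ) : ℂ) := by
    unfold Zh Yh kap
    push_cast
    ring
  rw [this, norm_mul, Complex.norm_exp_ofReal_mul_I, one_mul, Complex.norm_real, Real.norm_eq_abs,
    abs_mul]

theorem kap_le (hSINC : StSINC) (m : ℕ) (ξ : Pl) : |kap m ξ| ≤ 1 := by
  unfold kap
  rw [abs_mul]
  exact mul_le_one₀ (hSINC.1 _).1 (abs_nonneg _) (hSINC.1 _).1

theorem kap_sub (hSINC : StSINC) (m : ℕ) (ξ : Pl) :
    |1 - kap m ξ| ≤ 2 * Real.pi * (2 : ℝ) ^ (-(m : ℤ)) * |ξ 0| +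
      2 * Real.pi * (2 : ℝ) ^ (-(m : ℤ)) * |ξ 1| := by
  have hp := Real.pi_pos
  have h0 := (hSINC.1 (2 * Real.pi * (2 : ℝ) ^ (-(m : ℤ)) * ξ 0))
  have h1 := (hSINC.1 (2 * Real.pi * (2 : ℝ) ^ (-(m : ℤ)) * ξ 1))
  have e0 : |2 * Real.pi * (2 : ℝ) ^ (-(m : ℤ)) * ξ 0| =
      2 * Real.pi * (2 : ℝ) ^ (-(m : ℤ)) * |ξ 0| := by
    rw [abs_mul, abs_of_pos (by positivity)]
  have e1 : |2 * Real.pi * (2 : ℝ) ^ (-(m : ℤ)) * ξ 1| =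
      2 * Real.pi * (2 : ℝ) ^ (-(m : ℤ)) * |ξ 1| := by
    rw [abs_mul, abs_of_pos (by positivity)]
  rw [e0] at h0
  rw [e1] at h1
  unfold kap
  set x := Real.sinc (2 * Real.pi * (2 : ℝ) ^ (-(m : ℤ)) * ξ 0) with hx
  set y := Real.sinc (2 * Real.pi * (2 : ℝ) ^ (-(m : ℤ)) * ξ 1) with hy
  have : 1 - x * y = (1 - x) + x * (1 - y) := by ring
  rw [this]
  refine (abs_add_le _ _).trans ?_
  rw [abs_mul]
  have h3 : |x| * |1 - y| ≤ 1 * |1 - y| := mul_le_mul_of_nonneg_right h0.1 (abs_nonneg _)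
  linarith [h0.2.2, h1.2.2]

theorem kap_big (hSINC : StSINC) (m : ℕ) (ξ : Pl) :
    |kap m ξ| * (|ξ 0| + |ξ 1|) ≤ (2 : ℝ) ^ m := by
  have hp := Real.pi_gt_three
  have h0 := (hSINC.1 (2 * Real.pi * (2 : ℝ) ^ (-(m : ℤ)) * ξ 0))
  have h1 := (hSINC.1 (2 * Real.pi * (2 : ℝ) ^ (-(m : ℤ)) * ξ 1))
  have h02 := h0.2.1
  have h12 := h1.2.1
  have hpos : 0 < (2 : ℝ) ^ (-(m : ℤ)) := by positivity
  rw [abs_mul, abs_mul, abs_of_pos (show 0 < 2 * Real.pi * (2 : ℝ) ^ (-(m : ℤ)) by positivity)]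
    at h02 h12
  have hz : (2 : ℝ) ^ (-(m : ℤ)) * (2 : ℝ) ^ m = 1 := by
    rw [zpow_neg, zpow_natCast]
    exact inv_mul_cancel₀ (by positivity)
  unfold kap
  set x := Real.sinc (2 * Real.pi * (2 : ℝ) ^ (-(m : ℤ)) * ξ 0) with hx
  set y := Real.sinc (2 * Real.pi * (2 : ℝ) ^ (-(m : ℤ)) * ξ 1) with hy
  set t := (2 : ℝ) ^ (-(m : ℤ)) with ht
  set T := (2 : ℝ) ^ m with hT
  have hTpos : 0 < T := by positivity
  rw [abs_mul]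
  -- `|ξ 0| |x| ≤ T / (2 π)`
  have a0 : |ξ 0| * |x| ≤ T / 2 := by
    have : 2 * Real.pi * t * |ξ 0| * |x| * T ≤ 1 * T := mul_le_mul_of_nonneg_right h02 hTpos.le
    have e : 2 * Real.pi * t * |ξ 0| * |x| * T = 2 * Real.pi * (|ξ 0| * |x|) * (t * T) := by ring
    rw [e, hz] at this
    have hnn : 0 ≤ |ξ 0| * |x| := by positivity
    nlinarith
  have a1 : |ξ 1| * |y| ≤ T / 2 := by
    have : 2 * Real.pi * t * |ξ 1| * |y| * T ≤ 1 * T := mul_le_mul_of_nonneg_right h12 hTpos.le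
    have e : 2 * Real.pi * t * |ξ 1| * |y| * T = 2 * Real.pi * (|ξ 1| * |y|) * (t * T) := by ring
    rw [e, hz] at this
    have hnn : 0 ≤ |ξ 1| * |y| := by positivity
    nlinarith
  have b0 : |ξ 0| * |x| * |y| ≤ |ξ 0| * |x| * 1 :=
    mul_le_mul_of_nonneg_left h1.1 (by positivity)
  have b1 : |ξ 1| * |y| * |x| ≤ |ξ 1| * |y| * 1 :=
    mul_le_mul_of_nonneg_left h0.1 (by positivity)
  calc |x| * |y| * (|ξ 0| + |ξ 1|) = |ξ 0| * |x| * |y| + |ξ 1| * |y| * |x| := by ring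
    _ ≤ T := by linarith

theorem hMB (hPT : StPT) (hSINC : StSINC) : StMB := by
  refine ⟨100, by norm_num, ?_⟩
  intro s c m m' ℓ ξ _ hm hℓ
  obtain ⟨n0, n1, n2, -⟩ := hPT.2.2.1 ξ
  have hp := Real.pi_pos
  have hp3 := Real.pi_gt_three
  have hp4 := Real.pi_lt_four
  have hA := (hSINC.1 (Real.pi * ℓ * ⟪E s, ξ⟫))
  have hk1 := kap_le hSINC m ξ
  have hk2 := kap_le hSINC m' ξ
  have hdiff : |kap m ξ - kap m' ξ| ≤ 2 := by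
    have := abs_sub (kap m ξ) (kap m' ξ)
    linarith
  have hpow : (2 : ℝ) ^ (-(m : ℤ)) ≤ (2 : ℝ) ^ (-(m' : ℤ)) :=
    zpow_le_zpow_right₀ (by norm_num) (by
      have : (m' : ℤ) ≤ m := by exact_mod_cast hm
      linarith)
  have hpowpos : 0 < (2 : ℝ) ^ (-(m : ℤ)) := by positivity
  have hpow2 : (2 : ℝ) ^ m' ≤ (2 : ℝ) ^ m := pow_le_pow_right₀ (by norm_num) hm
  refine ⟨?_, ?_, ?_, ?_, ?_⟩
  · rw [Zh_norm]
    calc |Real.sinc (Real.pi * ℓ * ⟪E s, ξ⟫)| * |kap m ξ - kap m' ξ| ≤ 1 * 2 :=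
        mul_le_mul hA.1 hdiff (abs_nonneg _) zero_le_one
      _ ≤ 100 := by norm_num
  · rw [Zh_norm]
    have h1 := kap_sub hSINC m ξ
    have h2 := kap_sub hSINC m' ξ
    have h3 : |kap m ξ - kap m' ξ| ≤ |1 - kap m ξ| + |1 - kap m' ξ| := by
      have : kap m ξ - kap m' ξ = (1 - kap m' ξ) - (1 - kap m ξ) := by ring
      rw [this]
      have := abs_sub (1 - kap m' ξ) (1 - kap m ξ)
      linarith
    set t := (2 : ℝ) ^ (-(m : ℤ)) with ht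
    set t' := (2 : ℝ) ^ (-(m' : ℤ)) with ht'
    have ht'pos : 0 < t' := lt_of_lt_of_le hpowpos hpow
    have c1 : 2 * Real.pi * t * |ξ 0| ≤ 2 * Real.pi * t' * ‖ξ‖ := by gcongr
    have c2 : 2 * Real.pi * t * |ξ 1| ≤ 2 * Real.pi * t' * ‖ξ‖ := by gcongr
    have c3 : 2 * Real.pi * t' * |ξ 0| ≤ 2 * Real.pi * t' * ‖ξ‖ := by gcongr
    have c4 : 2 * Real.pi * t' * |ξ 1| ≤ 2 * Real.pi * t' * ‖ξ‖ := by gcongr
    have h4 : |kap m ξ - kap m' ξ| ≤ 8 * Real.pi * t' * ‖ξ‖ := by linarith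
    have h5 : 8 * Real.pi * t' * ‖ξ‖ ≤ 100 * (‖ξ‖ * t') := by
      have : 0 ≤ ‖ξ‖ * t' := by positivity
      nlinarith
    calc |Real.sinc (Real.pi * ℓ * ⟪E s, ξ⟫)| * |kap m ξ - kap m' ξ| ≤
        1 * |kap m ξ - kap m' ξ| := mul_le_mul_of_nonneg_right hA.1 (abs_nonneg _)
      _ ≤ 100 * (‖ξ‖ * t') := by linarith
  · rw [Zh_norm]
    have h1 := kap_big hSINC m ξ
    have h2 := kap_big hSINC m' ξ
    have hn : 0 ≤ ‖ξ‖ := norm_nonneg _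
    have d1 : |kap m ξ| * ‖ξ‖ ≤ (2 : ℝ) ^ m :=
      (mul_le_mul_of_nonneg_left n2 (abs_nonneg _)).trans h1
    have d2 : |kap m' ξ| * ‖ξ‖ ≤ (2 : ℝ) ^ m :=
      ((mul_le_mul_of_nonneg_left n2 (abs_nonneg _)).trans h2).trans hpow2
    have h3 : |kap m ξ - kap m' ξ| ≤ |kap m ξ| + |kap m' ξ| := abs_sub _ _
    calc |Real.sinc (Real.pi * ℓ * ⟪E s, ξ⟫)| * |kap m ξ - kap m' ξ| * ‖ξ‖ ≤
        1 * (|kap m ξ| + |kap m' ξ|) * ‖ξ‖ := by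
          gcongr
          exact hA.1
      _ = |kap m ξ| * ‖ξ‖ + |kap m' ξ| * ‖ξ‖ := by ring
      _ ≤ 100 * (2 : ℝ) ^ m := by
          have : 0 < (2 : ℝ) ^ m := by positivity
          linarith
  · rw [Zh_norm]
    have h1 := hA.2.1
    rw [abs_mul] at h1
    have e : |Real.pi * ℓ * ⟪E s, ξ⟫| = Real.pi * (ℓ * |⟪E s, ξ⟫|) := by
      rw [abs_mul, abs_of_pos (by positivity)]
      ring
    rw [e] at h1
    set a := ℓ * |⟪E s, ξ⟫| with ha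
    have ha0 : 0 ≤ a := by positivity
    set x := |Real.sinc (Real.pi * ℓ * ⟪E s, ξ⟫)| with hx
    have hx0 : 0 ≤ x := abs_nonneg _
    have h2 : x * a ≤ 1 := by nlinarith [mul_nonneg hx0 ha0]
    calc x * |kap m ξ - kap m' ξ| * a = x * a * |kap m ξ - kap m' ξ| := by ring
      _ ≤ 1 * 2 := mul_le_mul h2 hdiff (abs_nonneg _) zero_le_one
      _ ≤ 100 := by norm_num
  · intro ℓ' hℓ'
    rw [Zh_diff_norm]
    have h1 := hSINC.2.1 (Real.pi * ℓ * ⟪E s, ξ⟫) (Real.pi * ℓ' * ⟪E s, ξ⟫)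
    have e : |Real.pi * ℓ * ⟪E s, ξ⟫ - Real.pi * ℓ' * ⟪E s, ξ⟫| =
        Real.pi * (ℓ' - ℓ) * |⟪E s, ξ⟫| := by
      rw [show Real.pi * ℓ * ⟪E s, ξ⟫ - Real.pi * ℓ' * ⟪E s, ξ⟫ =
        -(Real.pi * (ℓ' - ℓ) * ⟪E s, ξ⟫) by ring, abs_neg, abs_mul,
        abs_of_nonneg (mul_nonneg hp.le (by linarith))]
    rw [e] at h1
    have h2 : Real.pi * (ℓ' - ℓ) * |⟪E s, ξ⟫| ≤ 4 * ℓ' * |⟪E s, ξ⟫| := by
      have hb : 0 ≤ |⟪E s, ξ⟫| := abs_nonneg _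
      have : Real.pi * (ℓ' - ℓ) ≤ 4 * ℓ' := by nlinarith
      exact mul_le_mul_of_nonneg_right this hb
    have h3 : 0 ≤ ℓ' * |⟪E s, ξ⟫| := mul_nonneg (by linarith) (abs_nonneg _)
    calc |Real.sinc (Real.pi * ℓ * ⟪E s, ξ⟫) - Real.sinc (Real.pi * ℓ' * ⟪E s, ξ⟫)| *
        |kap m ξ - kap m' ξ| ≤ (4 * ℓ' * |⟪E s, ξ⟫|) * 2 :=
          mul_le_mul (h1.trans h2) hdiff (abs_nonneg _) (by linarith)
      _ ≤ 100 * (ℓ' * |⟪E s, ξ⟫|) := by linarith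

end Pool.Agent.Helper79.RG
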